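import Mathlib

namespace Pool.Agent.Results.MP_21cc58_al.Counter

/-- `p` and `q` are joined in the prime graph of `G`. -/
def Adj (G : Type) [Group G] (p q : ℕ) : Prop :=
  p.Prime ∧ q.Prime ∧ p ≠ q ∧ ∃ g : G, orderOf g = p * q

/-- the degree of `p` in the prime graph of `G`. -/
noncomputable def deg (G : Type) [Group G] (p : ℕ) : ℕ := {q | Adj G p q}.ncard

@[ext] structure W (r : ZMod 91) where
  x : ZMod 91
  i : ZMod 6
  deriving DecidableEq

class Good (r : ZMod 91) : Prop where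
  h : ∀ i j : ZMod 6, r ^ (i + j).val = r ^ i.val * r ^ j.val

instance : Good 55 := ⟨by decide +kernel⟩
instance : Good 51 := ⟨by decide +kernel⟩

variable {r : ZMod 91}

instance : Mul (W r) := ⟨fun a b => ⟨a.x + r ^ a.i.val * b.x, a.i + b.i⟩⟩
instance : One (W r) := ⟨⟨0, 0⟩⟩
instance : Inv (W r) := ⟨fun a => ⟨-(r ^ (-a.i).val * a.x), -a.i⟩⟩

theorem mul_x (a b : W r) : (a * b).x = a.x + r ^ a.i.val * b.x := rfl
theorem mul_i (a b : W r) : (a * b).i = a.i + b.i := rfl

instance [g : Good r] : Group (W r) :=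
  Group.ofLeftAxioms
    (fun a b c => by
      ext
      · simp only [mul_x, mul_i, g.h]; ring
      · simp only [mul_i, add_assoc])
    (fun a => by
      ext
      · show (0 : ZMod 91) + r ^ (0 : ZMod 6).val * a.x = a.x
        simp
      · exact zero_add _)
    (fun a => by
      ext
      · exact neg_add_cancel _
      · exact neg_add_cancel _)

def eqv : W r ≃ ZMod 91 × ZMod 6 := ⟨fun a => (a.x, a.i), fun p => ⟨p.1, p.2⟩, fun _ => rfl, fun _ => rfl⟩

instance : Finite (W r) := Finite.of_equiv _ eqv.symm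

theorem card_W : Nat.card (W r) = 546 := by
  rw [Nat.card_congr eqv]; simp

def E (r : ZMod 91) [Good r] (n : ℕ) : Prop :=
  ∃ x : ZMod 91, ∃ i : ZMod 6, (⟨x, i⟩ : W r) ^ n = 1 ∧ ∀ m, m < n → 0 < m → (⟨x, i⟩ : W r) ^ m ≠ 1

instance [Good r] (n : ℕ) : Decidable (E r n) := by unfold E; infer_instance

theorem ex_iff [Good r] {n : ℕ} (hn : 0 < n) : (∃ g : W r, orderOf g = n) ↔ E r n := by
  simp only [orderOf_eq_iff hn]
  exact ⟨fun ⟨g, h⟩ => ⟨g.x, g.i, h⟩, fun ⟨x, i, h⟩ => ⟨⟨x, i⟩, h⟩⟩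

theorem pr {p : ℕ} (hp : p.Prime) (h : p ∣ 546) : p ∈ ({2, 3, 7, 13} : Finset ℕ) := by
  have : ∀ p ∈ Nat.divisors 546, p.Prime → p ∈ ({2, 3, 7, 13} : Finset ℕ) := by decide +kernel
  exact this p (Nat.mem_divisors.2 ⟨h, by norm_num⟩) hp

theorem deg_eq [Good r] {p : ℕ} (hp : p.Prime) :
    deg (W r) p = (({2, 3, 7, 13} : Finset ℕ).filter fun q => p ≠ q ∧ E r (p * q)).card := by
  rw [deg, ← Set.ncard_coe_finset]
  congr 1
  ext q
  simp only [Set.mem_setOf_eq, Finset.coe_filter, Adj]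
  constructor
  · rintro ⟨-, hq, hne, g, hg⟩
    refine ⟨pr hq ?_, hne, (ex_iff (Nat.mul_pos hp.pos hq.pos)).1 ⟨g, hg⟩⟩
    rw [← card_W (r := r)]
    exact (Dvd.intro_left _ hg.symm).trans (orderOf_dvd_natCard g)
  · rintro ⟨hq, hne, h⟩
    have hq' : q.Prime := by
      simp only [Finset.mem_insert, Finset.mem_singleton] at hq
      rcases hq with rfl | rfl | rfl | rfl <;> norm_num
    exact ⟨hp, hq', hne, (ex_iff (Nat.mul_pos hp.pos hq'.pos)).2 h⟩

theorem result : ∃ (G M : Type) (_ : Group G) (_ : Group M), Finite G ∧ Finite M ∧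
    Nat.card G = Nat.card M ∧ (∀ p, p.Prime → p ∣ Nat.card G → deg G p = deg M p) ∧
    ∃ p q, Adj G p q ∧ ¬ Adj M p q := by
  refine ⟨W 55, W 51, inferInstance, inferInstance, inferInstance, inferInstance,
    by rw [card_W, card_W], fun p hp h => ?_, 2, 13,
    ⟨by norm_num, by norm_num, by norm_num, (ex_iff (by norm_num)).2 (by decide +kernel)⟩,
    fun h => absurd ((ex_iff (by norm_num)).1 h.2.2.2) (by decide +kernel)⟩
  rw [card_W] at h
  rw [deg_eq hp, deg_eq hp]
  have := pr hp h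
  clear h hp
  revert p
  decide +kernel

end Pool.Agent.Results.MP_21cc58_al.Counter
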